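import Mathlib

/-!
# The covering process of growing random balls
-/

set_option autoImplicit false

namespace Pool.Agent.V1164.HC

open MeasureTheory ProbabilityTheory

/-- the time `τ_{i+1}` of arrival of the seed number `i` (counted from `0`), for the sequence `ω`
of pairs (waiting time, seed) -/
def arrival {S : Type} (ω : ℕ → ℝ × S) (i : ℕ) : ℝ := ∑ j ∈ Finset.range (i + 1), (ω j).1

/-- the growth process `X(t)`: the union of the closed balls of radius `v (t - τ_i)` around the
seeds with `τ_i ≤ t` -/
def grown {S : Type} [MetricSpace S] (v : ℝ) (ω : ℕ → ℝ × S) (t : ℝ) : Set S :=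
  {s | ∃ i, arrival ω i ≤ t ∧ s ∈ Metric.closedBall (ω i).2 (v * (t - arrival ω i))}

/-- the cover time -/
noncomputable def coverTime {S : Type} [MetricSpace S] (v : ℝ) (ω : ℕ → ℝ × S) : ℝ :=
  sInf {t | 0 ≤ t ∧ grown v ω t = Set.univ}

/-- the law of the sequence of pairs (waiting time, seed): the waiting times are independent and
exponential with rate `lam`, the seeds are independent with law `μ` -/
noncomputable def law {S : Type} [MeasurableSpace S] (lam : ℝ) (μ : Measure S) :
    Measure (ℕ → ℝ × S) :=
  Measure.infinitePi fun _ => (expMeasure lam).prod μ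

/-- the mean cover time -/
noncomputable def meanCoverTime {S : Type} [MetricSpace S] [MeasurableSpace S] (lam v : ℝ)
    (μ : Measure S) : ENNReal :=
  ∫⁻ ω, ENNReal.ofReal (coverTime v ω) ∂(law lam μ)

end Pool.Agent.V1164.HC
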