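import Mathlib

/-!
# Some integrals against the exponential law
-/

set_option autoImplicit false

namespace Pool.Agent.V1164.HC

open MeasureTheory ProbabilityTheory Set

noncomputable section

lemma pdf_eq (r x : ℝ) : exponentialPDFReal r x = if 0 ≤ x then r * Real.exp (-(r * x)) else 0 := by
  rw [exponentialPDFReal, gammaPDFReal]
  simp only [Real.rpow_one, Real.Gamma_one, div_one, sub_self, Real.rpow_zero, mul_one]

lemma integral_exp {r : ℝ} (hr : 0 < r) (f : ℝ → ℝ) :
    ∫ x, f x ∂(expMeasure r) = ∫ x, exponentialPDFReal r x * f x := by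
  rw [expMeasure, gammaMeasure, integral_withDensity_eq_integral_toReal_smul]
  · refine integral_congr_ae (Filter.Eventually.of_forall fun x => ?_)
    simp only [smul_eq_mul]
    congr 1
    rw [gammaPDF, ENNReal.toReal_ofReal (gammaPDFReal_nonneg one_pos hr x)]
    rfl
  · exact (measurable_gammaPDFReal 1 r).ennreal_ofReal
  · exact Filter.Eventually.of_forall fun x => ENNReal.ofReal_lt_top

/-- the function `x ↦ (a - x⁺)⁺` -/
def pos (a x : ℝ) : ℝ := max (a - max x 0) 0

lemma pos_le {a : ℝ} (ha : 0 ≤ a) (x : ℝ) : pos a x ≤ a := by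
  rw [pos]
  have := le_max_right x 0
  exact max_le (by linarith) ha

lemma pos_nonneg (a x : ℝ) : 0 ≤ pos a x := le_max_right _ _

lemma continuous_pos (a : ℝ) : Continuous (pos a) := by
  unfold pos; fun_prop

lemma I_one_le {r : ℝ} (hr : 0 < r) : ∫ x, pos 1 x ∂(expMeasure r) ≤ r / 2 := by
  rw [integral_exp hr]
  have h1 : ∫ x in (0 : ℝ)..1, r * (1 - x) = r / 2 := by
    rw [intervalIntegral.integral_const_mul]
    have : ∫ x in (0 : ℝ)..1, (1 - x) = 1 / 2 := by
      rw [intervalIntegral.integral_sub (by simp) (by simp)]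
      simp
      norm_num
    rw [this]; ring
  rw [← h1, intervalIntegral.integral_of_le zero_le_one, ← integral_Icc_eq_integral_Ioc,
    ← integral_indicator measurableSet_Icc]
  refine integral_mono_of_nonneg (Filter.Eventually.of_forall fun x => ?_) ?_
    (Filter.Eventually.of_forall fun x => ?_)
  · exact mul_nonneg (exponentialPDFReal_nonneg hr x) (pos_nonneg _ _)
  · rw [integrable_indicator_iff measurableSet_Icc]
    exact ContinuousOn.integrableOn_Icc (by fun_prop)
  · simp only [pdf_eq, indicator, mem_Icc, pos]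
    by_cases h0 : 0 ≤ x
    · rw [if_pos h0, max_eq_left h0]
      have h2 : Real.exp (-(r * x)) ≤ 1 := by
        rw [Real.exp_le_one_iff]
        nlinarith
      by_cases h3 : x ≤ 1
      · rw [if_pos ⟨h0, h3⟩, max_eq_left (by linarith)]
        have h4 : 0 ≤ 1 - x := by linarith
        have h5 : r * Real.exp (-(r * x)) ≤ r := by nlinarith
        exact mul_le_mul_of_nonneg_right h5 h4
      · rw [if_neg (fun h => h3 h.2), max_eq_right (by linarith), mul_zero]
    · rw [if_neg h0, if_neg (fun h => h0 h.1), zero_mul]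

lemma integrable_exp_of_bounded {r : ℝ} (hr : 0 < r) {f : ℝ → ℝ} (hf : Measurable f) (c : ℝ)
    (hb : ∀ x, |f x| ≤ c) : Integrable f (expMeasure r) := by
  haveI := isProbabilityMeasure_expMeasure hr
  exact Integrable.of_bound hf.aestronglyMeasurable c (Filter.Eventually.of_forall hb)

lemma ae_nonneg {r : ℝ} (_hr : 0 < r) : ∀ᵐ x ∂(expMeasure r), 0 ≤ x := by
  rw [ae_iff]
  have h1 : {a : ℝ | ¬ 0 ≤ a} = Iio 0 := by ext; simp
  rw [h1, expMeasure, gammaMeasure, withDensity_apply _ measurableSet_Iio]
  exact lintegral_exponentialPDF_of_nonpos (le_refl 0)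

lemma I_two_ge {r : ℝ} (hr : 0 < r) : 2 * r * Real.exp (-(2 * r)) ≤
    ∫ x, pos 2 x ∂(expMeasure r) := by
  rw [integral_exp hr]
  have h1 : ∫ x in (0 : ℝ)..2, r * Real.exp (-(2 * r)) * (2 - x) =
      2 * r * Real.exp (-(2 * r)) := by
    rw [intervalIntegral.integral_const_mul]
    have : ∫ x in (0 : ℝ)..2, (2 - x) = 2 := by
      rw [intervalIntegral.integral_sub (by simp) (by simp)]
      simp
      norm_num
    rw [this]; ring
  rw [← h1, intervalIntegral.integral_of_le zero_le_two, ← integral_Icc_eq_integral_Ioc,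
    ← integral_indicator measurableSet_Icc]
  refine integral_mono_of_nonneg (Filter.Eventually.of_forall fun x => ?_) ?_
    (Filter.Eventually.of_forall fun x => ?_)
  · simp only [indicator, mem_Icc]
    split_ifs with h
    · have := Real.exp_pos (-(2 * r))
      have h3 : 0 ≤ 2 - x := by linarith [h.2]
      positivity
    · exact le_refl _
  · have h2 : Integrable (exponentialPDFReal r) := by
      have h3 : ∫⁻ x, ENNReal.ofReal (exponentialPDFReal r x) = 1 :=
        lintegral_exponentialPDF_eq_one hr
      refine ⟨(measurable_exponentialPDFReal r).aestronglyMeasurable, ?_⟩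
      rw [hasFiniteIntegral_iff_ofReal
        (Filter.Eventually.of_forall fun x => exponentialPDFReal_nonneg hr x), h3]
      exact ENNReal.one_lt_top
    refine (h2.mul_const 2).mono' ?_ (Filter.Eventually.of_forall fun x => ?_)
    · apply Measurable.aestronglyMeasurable
      exact (measurable_exponentialPDFReal r).mul
        (continuous_pos 2).measurable
    · rw [Real.norm_eq_abs, abs_mul, abs_of_nonneg (exponentialPDFReal_nonneg hr x),
        abs_of_nonneg (pos_nonneg _ _)]
      exact mul_le_mul_of_nonneg_left (pos_le (by norm_num) x) (exponentialPDFReal_nonneg hr x)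
  · simp only [pdf_eq, indicator, mem_Icc, pos]
    by_cases h0 : 0 ≤ x
    · rw [if_pos h0, max_eq_left h0]
      by_cases h3 : x ≤ 2
      · rw [if_pos ⟨h0, h3⟩, max_eq_left (by linarith)]
        have h4 : 0 ≤ 2 - x := by linarith
        have h5 : Real.exp (-(2 * r)) ≤ Real.exp (-(r * x)) := by
          rw [Real.exp_le_exp]; nlinarith
        exact mul_le_mul_of_nonneg_right (mul_le_mul_of_nonneg_left h5 hr.le) h4
      · rw [if_neg (fun h => h3 h.2)]
        have := Real.exp_pos (-(r * x))
        positivity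
    · rw [if_neg h0, if_neg (fun h => h0 h.1), zero_mul]

lemma q_le {r : ℝ} (hr : 0 < r) : (expMeasure r).real (Iic 2) ≤ 2 * r := by
  haveI := isProbabilityMeasure_expMeasure hr
  rw [← cdf_eq_real, cdf_expMeasure_eq hr, if_pos (by norm_num)]
  have := Real.add_one_le_exp (-(r * 2))
  linarith

lemma mean_ne_top {r : ℝ} (hr : 0 < r) : ∫⁻ x, ENNReal.ofReal x ∂(expMeasure r) ≠ ⊤ := by
  have hm : Measurable (gammaPDF 1 r) := (measurable_gammaPDFReal 1 r).ennreal_ofReal
  rw [expMeasure, gammaMeasure, lintegral_withDensity_eq_lintegral_mul _ hm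
    ENNReal.measurable_ofReal]
  have h1 : ∀ x : ℝ, (gammaPDF 1 r * fun x => ENNReal.ofReal x) x ≤
      (Ioi (0 : ℝ)).indicator (fun x => ENNReal.ofReal (2 * Real.exp (-((r / 2) * x)))) x := by
    intro x
    rw [Pi.mul_apply]
    have h2 : gammaPDF 1 r x = exponentialPDF r x := rfl
    rw [h2, exponentialPDF_eq]
    by_cases h0 : 0 < x
    · rw [indicator_of_mem (show x ∈ Ioi (0 : ℝ) from h0), if_pos h0.le,
        ← ENNReal.ofReal_mul (by positivity)]
      apply ENNReal.ofReal_le_ofReal
      have h3 : Real.exp (-(r * x)) = Real.exp (-((r / 2) * x)) * Real.exp (-((r / 2) * x)) := by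
        rw [← Real.exp_add]; congr 1; ring
      have h4 : (r / 2 * x) * Real.exp (-((r / 2) * x)) ≤ 1 := by
        have h5 : r / 2 * x ≤ Real.exp (r / 2 * x) := by
          have := Real.add_one_le_exp (r / 2 * x)
          linarith
        have h6 : Real.exp (r / 2 * x) * Real.exp (-((r / 2) * x)) = 1 := by
          rw [← Real.exp_add]; simp
        have h7 := Real.exp_pos (-((r / 2) * x))
        nlinarith
      rw [h3]
      have h7 := Real.exp_pos (-((r / 2) * x))
      nlinarith
    · rw [indicator_of_notMem (show x ∉ Ioi (0 : ℝ) from h0)]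
      rw [ENNReal.ofReal_of_nonpos (not_lt.mp h0), mul_zero]
  refine ne_top_of_le_ne_top ?_ (lintegral_mono h1)
  rw [lintegral_indicator measurableSet_Ioi]
  have h2 : IntegrableOn (fun x : ℝ => 2 * Real.exp (-((r / 2) * x))) (Ioi 0) := by
    have h3 := (exp_neg_integrableOn_Ioi 0 (half_pos hr)).const_mul 2
    simp only [neg_mul] at h3
    exact h3
  exact (IntegrableOn.setLIntegral_lt_top h2).ne

end

end Pool.Agent.V1164.HC
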