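import Pool.Agent.V1164.HC.Defs
import Pool.Agent.V1164.HC.Exp

/-!
# The cyclic group of order four with the cycle metric
-/

set_option autoImplicit false

namespace Pool.Agent.V1164.HC

open MeasureTheory ProbabilityTheory Set

/-- the cyclic group of order four -/
def S4 : Type := Multiplicative (ZMod 4)

instance : CommGroup S4 := inferInstanceAs (CommGroup (Multiplicative (ZMod 4)))
instance : Fintype S4 := inferInstanceAs (Fintype (ZMod 4))
instance : DecidableEq S4 := inferInstanceAs (DecidableEq (ZMod 4))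

/-- the distance to the neutral element in the 4-cycle -/
def nd (x : S4) : ℕ := (![0, 1, 2, 1] : Fin 4 → ℕ) (Multiplicative.toAdd x : ZMod 4)

/-- the distance in the 4-cycle, as a natural number -/
def dN (x y : S4) : ℕ := nd (x⁻¹ * y)

lemma dN_self : ∀ x, dN x x = 0 := by decide
lemma dN_comm : ∀ x y, dN x y = dN y x := by decide
lemma dN_triangle : ∀ x y z, dN x z ≤ dN x y + dN y z := by decide
lemma eq_of_dN : ∀ x y, dN x y = 0 → x = y := by decide
lemma dN_mul : ∀ g x y, dN (g * x) (g * y) = dN x y := by decide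
lemma dN_le_two : ∀ x y, dN x y ≤ 2 := by decide

noncomputable section

instance : MetricSpace S4 where
  dist x y := dN x y
  dist_self x := by
    rw [dN_self]; norm_num
  dist_comm x y := by
    rw [dN_comm]
  dist_triangle x y z := by
    exact_mod_cast dN_triangle x y z
  eq_of_dist_eq_zero {x y} h := by
    have h' : ((dN x y : ℕ) : ℝ) = 0 := h
    exact eq_of_dN x y (by exact_mod_cast h')

lemma dist_eq (x y : S4) : dist x y = dN x y := rfl

lemma dist_mul (g x y : S4) : dist (g * x) (g * y) = dist x y := by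
  rw [dist_eq, dist_eq, dN_mul]

instance : Finite S4 := Finite.of_fintype _
instance : DiscreteTopology S4 := inferInstance
instance : CompactSpace S4 := inferInstance
instance : IsTopologicalGroup S4 where
  continuous_mul := continuous_of_discreteTopology
  continuous_inv := continuous_of_discreteTopology
instance : MeasurableSpace S4 := ⊤
instance : BorelSpace S4 := ⟨borel_eq_top_of_discrete.symm⟩

/-- the neighbour `1` of the neutral element -/
def g1 : S4 := Multiplicative.ofAdd (1 : ZMod 4)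

/-! ### pathwise bounds -/

variable {ω : ℕ → ℝ × S4} (hω : ∀ i, 0 ≤ (ω i).1)

lemma arrival_zero : arrival ω 0 = (ω 0).1 := by simp [arrival]

lemma arrival_one : arrival ω 1 = (ω 0).1 + (ω 1).1 := by simp [arrival, Finset.sum_range_succ]

include hω in
lemma arrival_ge {i : ℕ} (hi : 2 ≤ i) : (ω 0).1 + (ω 1).1 + (ω 2).1 ≤ arrival ω i := by
  have h1 : (ω 0).1 + (ω 1).1 + (ω 2).1 = ∑ j ∈ Finset.range 3, (ω j).1 := by
    simp [Finset.sum_range_succ]
  rw [h1, arrival]
  refine Finset.sum_le_sum_of_subset_of_nonneg ?_ fun j _ _ => hω j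
  intro j hj
  rw [Finset.mem_range] at hj ⊢
  omega

include hω in
lemma arrival_ge_one {i : ℕ} (hi : 1 ≤ i) : (ω 0).1 + (ω 1).1 ≤ arrival ω i := by
  have h1 : (ω 0).1 + (ω 1).1 = ∑ j ∈ Finset.range 2, (ω j).1 := by
    simp [Finset.sum_range_succ]
  rw [h1, arrival]
  refine Finset.sum_le_sum_of_subset_of_nonneg ?_ fun j _ _ => hω j
  intro j hj
  rw [Finset.mem_range] at hj ⊢
  omega

include hω in
lemma arrival_ge_zero (i : ℕ) : (ω 0).1 ≤ arrival ω i := by
  have h1 : (ω 0).1 = ∑ j ∈ Finset.range 1, (ω j).1 := by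
    simp [Finset.sum_range_succ]
  rw [h1, arrival]
  refine Finset.sum_le_sum_of_subset_of_nonneg ?_ fun j _ _ => hω j
  intro j hj
  rw [Finset.mem_range] at hj ⊢
  omega

include hω in
lemma mem_two : (ω 0).1 + 2 ∈ {t | 0 ≤ t ∧ grown 1 ω t = Set.univ} := by
  refine ⟨by have := hω 0; linarith, ?_⟩
  rw [eq_univ_iff_forall]
  intro s
  refine ⟨0, by rw [arrival_zero]; linarith, ?_⟩
  rw [Metric.mem_closedBall, dist_eq, arrival_zero]
  have h : ((dN s (ω 0).2 : ℕ) : ℝ) ≤ 2 := by exact_mod_cast dN_le_two _ _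
  linarith

lemma bddBelow : BddBelow {t | 0 ≤ t ∧ grown 1 ω t = Set.univ} := ⟨0, fun _ ht => ht.1⟩

/-- is the second seed antipodal to the first one? -/
def k2 (s s' : S4) : ℝ := if s' = s * (g1 * g1) then 1 else 0

/-- is the second seed a neighbour of the first one? -/
def k1 (s s' : S4) : ℝ := if s' = s * g1 ∨ s' = s * (g1 * g1 * g1) then 1 else 0

include hω in
lemma cover_le : coverTime 1 ω ≤
    (ω 0).1 + (2 - k2 (ω 0).2 (ω 1).2 * (pos 2 (ω 1).1 - pos 1 (ω 1).1)) := by
  have h0 := hω 0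
  have h1 := hω 1
  by_cases hk : (ω 1).2 = (ω 0).2 * (g1 * g1)
  · rw [k2, if_pos hk, one_mul, pos, pos, max_eq_left h1]
    by_cases h2 : (ω 1).1 ≤ 2
    · have e1 : (2 : ℝ) - (max (2 - (ω 1).1) 0 - max (1 - (ω 1).1) 0) = max 1 (ω 1).1 := by
        rw [max_eq_left (by linarith : (0 : ℝ) ≤ 2 - (ω 1).1)]
        rcases le_total 1 (ω 1).1 with h3 | h3
        · rw [max_eq_right (by linarith : 1 - (ω 1).1 ≤ 0), max_eq_right h3]; ring
        · rw [max_eq_left (by linarith : 0 ≤ 1 - (ω 1).1), max_eq_left h3]; ring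
      rw [e1]
      apply csInf_le bddBelow
      refine ⟨by positivity, ?_⟩
      rw [eq_univ_iff_forall]
      intro s
      by_cases hs : s = (ω 1).2
      · refine ⟨1, by rw [arrival_one]; linarith [le_max_right 1 (ω 1).1], ?_⟩
        rw [hs]
        apply Metric.mem_closedBall_self
        rw [arrival_one]
        linarith [le_max_right 1 (ω 1).1]
      · refine ⟨0, by rw [arrival_zero]; linarith [le_max_left 1 (ω 1).1], ?_⟩
        rw [Metric.mem_closedBall, dist_eq, arrival_zero]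
        have h5 : ∀ a s : S4, s ≠ a * (g1 * g1) → dN s a ≤ 1 := by decide
        have h6 : dN s (ω 0).2 ≤ 1 := h5 _ _ (by rw [← hk]; exact hs)
        have h7 : ((dN s (ω 0).2 : ℕ) : ℝ) ≤ 1 := by exact_mod_cast h6
        linarith [le_max_left 1 (ω 1).1]
    · rw [max_eq_right (by linarith : 2 - (ω 1).1 ≤ 0),
        max_eq_right (by linarith : 1 - (ω 1).1 ≤ 0), sub_self, sub_zero]
      exact csInf_le bddBelow (mem_two hω)
  · rw [k2, if_neg hk, zero_mul, sub_zero]
    exact csInf_le bddBelow (mem_two hω)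

/-- the indicator of `x ≤ 2` -/
def ind (x : ℝ) : ℝ := if x ≤ 2 then 1 else 0

lemma four : ∀ a s : S4, s = a ∨ s = a * g1 ∨ s = a * (g1 * g1) ∨ s = a * (g1 * g1 * g1) := by
  decide

/-- the lower bound for the cover time minus the first arrival time -/
def low (ω : ℕ → ℝ × S4) : ℝ :=
  2 - k2 (ω 0).2 (ω 1).2 * (pos 2 (ω 1).1 - pos 1 (ω 1).1) -
    k1 (ω 0).2 (ω 1).2 * pos 1 (ω 1).1 - 2 * (ind (ω 1).1 * ind (ω 2).1)

include hω in
lemma le_cover : (ω 0).1 + max (low ω) 0 ≤ coverTime 1 ω := by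
  apply le_csInf ⟨_, mem_two hω⟩
  rintro t ⟨_, ht⟩
  have h0 := hω 0
  have h1 := hω 1
  have h2 := hω 2
  rw [eq_univ_iff_forall] at ht
  -- `t ≥ τ_0`
  have ht0 : (ω 0).1 ≤ t := by
    obtain ⟨i, hi, _⟩ := ht 1
    exact le_trans (arrival_ge_zero hω i) hi
  have hgap : 0 ≤ pos 2 (ω 1).1 - pos 1 (ω 1).1 := by
    rw [pos, pos, sub_nonneg]
    exact max_le_max_right _ (by linarith)
  have hk1 : 0 ≤ k1 (ω 0).2 (ω 1).2 := by rw [k1]; split_ifs <;> norm_num
  have hk2 : 0 ≤ k2 (ω 0).2 (ω 1).2 := by rw [k2]; split_ifs <;> norm_num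
  have hp1 := pos_nonneg 1 (ω 1).1
  have hm1 : 0 ≤ k1 (ω 0).2 (ω 1).2 * pos 1 (ω 1).1 := mul_nonneg hk1 hp1
  have hm2 : 0 ≤ k2 (ω 0).2 (ω 1).2 * (pos 2 (ω 1).1 - pos 1 (ω 1).1) := mul_nonneg hk2 hgap
  have hi1 : ∀ x, 0 ≤ ind x := fun x => by rw [ind]; split_ifs <;> norm_num
  have hii := mul_nonneg (hi1 (ω 1).1) (hi1 (ω 2).1)
  suffices h : low ω ≤ t - (ω 0).1 by
    have h' : max (low ω) 0 ≤ t - (ω 0).1 := max_le h (by linarith)
    linarith
  by_cases ht2 : (ω 0).1 + 2 ≤ t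
  · rw [low]
    linarith
  push Not at ht2
  by_cases h12 : (ω 1).1 + (ω 2).1 ≤ 2
  · have e1 : ind (ω 1).1 = 1 := by rw [ind, if_pos (by linarith)]
    have e2 : ind (ω 2).1 = 1 := by rw [ind, if_pos (by linarith)]
    rw [low, e1, e2]
    linarith
  push Not at h12
  -- only the seeds `0` and `1` matter
  have key : ∀ s : S4, dist s (ω 0).2 ≤ t - (ω 0).1 ∨
      ((ω 0).1 + (ω 1).1 ≤ t ∧ dist s (ω 1).2 ≤ t - (ω 0).1 - (ω 1).1) := by
    intro s
    obtain ⟨i, hi, hs⟩ := ht s
    rw [Metric.mem_closedBall, one_mul] at hs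
    match i, hi, hs with
    | 0, _, hs => left; rwa [arrival_zero] at hs
    | 1, hi, hs =>
      right
      rw [arrival_one] at hi hs
      exact ⟨hi, by linarith⟩
    | j + 2, hi, _ =>
      have := arrival_ge hω (i := j + 2) (by omega)
      linarith
  have hanti := key ((ω 0).2 * (g1 * g1))
  have hd2 : dist ((ω 0).2 * (g1 * g1)) (ω 0).2 = 2 := by
    rw [dist_eq]
    have : ∀ a : S4, dN (a * (g1 * g1)) a = 2 := by decide
    rw [this]; norm_num
  rw [hd2] at hanti
  have hanti' : (ω 0).1 + (ω 1).1 ≤ t ∧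
      dist ((ω 0).2 * (g1 * g1)) (ω 1).2 ≤ t - (ω 0).1 - (ω 1).1 := by
    rcases hanti with h | h
    · linarith
    · exact h
  obtain ⟨ha1, ha2⟩ := hanti'
  have hindneg : 0 ≤ 2 * (ind (ω 1).1 * ind (ω 2).1) := by linarith
  rcases four (ω 0).2 (ω 1).2 with h | h | h | h
  · rw [h] at ha2
    rw [hd2] at ha2
    linarith
  · have e1 : k1 (ω 0).2 (ω 1).2 = 1 := by rw [k1, if_pos (Or.inl h)]
    have hd : dist ((ω 0).2 * (g1 * g1)) ((ω 0).2 * g1) = 1 := by
      rw [dist_eq]
      have : ∀ a : S4, dN (a * (g1 * g1)) (a * g1) = 1 := by decide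
      rw [this]; norm_num
    rw [h, hd] at ha2
    have hp : pos 1 (ω 1).1 = 1 - (ω 1).1 := by
      rw [pos, max_eq_left h1, max_eq_left (by linarith)]
    rw [hp] at hm2
    rw [low, e1, hp]
    linarith
  · have e1 : k2 (ω 0).2 (ω 1).2 = 1 := by rw [k2, if_pos h]
    have hn := key ((ω 0).2 * g1)
    have hd : dist ((ω 0).2 * g1) (ω 0).2 = 1 := by
      rw [dist_eq]
      have : ∀ a : S4, dN (a * g1) a = 1 := by decide
      rw [this]; norm_num
    have hd' : dist ((ω 0).2 * g1) (ω 1).2 = 1 := by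
      rw [h, dist_eq]
      have : ∀ a : S4, dN (a * g1) (a * (g1 * g1)) = 1 := by decide
      rw [this]; norm_num
    rw [hd, hd'] at hn
    have hs1 : 1 ≤ t - (ω 0).1 := by
      rcases hn with h' | ⟨_, h'⟩
      · exact h'
      · linarith
    rw [low, e1, one_mul, pos, pos, max_eq_left h1,
      max_eq_left (by linarith : (0 : ℝ) ≤ 2 - (ω 1).1)]
    rcases le_total 1 (ω 1).1 with h3 | h3
    · rw [max_eq_right (by linarith : 1 - (ω 1).1 ≤ 0)]
      linarith
    · rw [max_eq_left (by linarith : 0 ≤ 1 - (ω 1).1)]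
      have hm3 : 0 ≤ k1 (ω 0).2 (ω 1).2 * (1 - (ω 1).1) := mul_nonneg hk1 (by linarith)
      linarith
  · have e1 : k1 (ω 0).2 (ω 1).2 = 1 := by rw [k1, if_pos (Or.inr h)]
    have hd : dist ((ω 0).2 * (g1 * g1)) ((ω 0).2 * (g1 * g1 * g1)) = 1 := by
      rw [dist_eq]
      have : ∀ a : S4, dN (a * (g1 * g1)) (a * (g1 * g1 * g1)) = 1 := by decide
      rw [this]; norm_num
    rw [h, hd] at ha2
    have hp : pos 1 (ω 1).1 = 1 - (ω 1).1 := by
      rw [pos, max_eq_left h1, max_eq_left (by linarith)]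
    rw [hp] at hm2
    rw [low, e1, hp]
    linarith

end

end Pool.Agent.V1164.HC
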